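import Pool.Agent.SeqDil.Basic

namespace Pool.Agent.SeqAdd

open Pool.Agent.SeqDil

variable {a : ℕ → ℕ}

theorem tt_3_3 (G : Good a) : St a (2 ^ 8 * (1) + 65 + 1) 3 (2 + 1) :=
  state_of G (K := 8) (k := 1) (o := 65) (A := 907) (J := 4) (w := 2) (v := 3) (St.root G)
    (by norm_num) (by norm_num) (by decide +kernel) (by norm_num) (by decide +kernel)
    (by norm_num) (by decide +kernel) (by decide +kernel)
    (fun l h1 h2 => by omega)

theorem tt_1_5 (G : Good a) : St a (2 ^ 9 * (1) + 55 + 1) 1 (4 + 1) :=
  state_of G (K := 9) (k := 2) (o := 55) (A := 3105) (J := 5) (w := 4) (v := 1) (St.root G)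
    (by norm_num) (by norm_num) (by decide +kernel) (by norm_num) (by decide +kernel)
    (by norm_num) (by decide +kernel) (by decide +kernel)
    (fun l h1 h2 => by interval_cases l <;> decide +kernel)

theorem tt_5_3 (G : Good a) : St a (2 ^ 9 * (1) + 121 + 1) 5 (2 + 1) :=
  state_of G (K := 9) (k := 2) (o := 121) (A := 5137) (J := 5) (w := 2) (v := 5) (St.root G)
    (by norm_num) (by norm_num) (by decide +kernel) (by norm_num) (by decide +kernel)
    (by norm_num) (by decide +kernel) (by decide +kernel)
    (fun l h1 h2 => by interval_cases l <;> decide +kernel)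

theorem tt_9_3 (G : Good a) : St a (2 ^ 10 * (2 ^ 9 * (1) + 121 + 1) + 191 + 1) 9 (2 + 1) :=
  state_of G (K := 10) (k := 2) (o := 191) (A := 29010) (J := 7) (w := 2) (v := 9) (tt_5_3 G)
    (by norm_num) (by norm_num) (by decide +kernel) (by norm_num) (by decide +kernel)
    (by norm_num) (by decide +kernel) (by decide +kernel)
    (fun l h1 h2 => by interval_cases l <;> decide +kernel)

theorem tt_7_5 (G : Good a) : St a (2 ^ 10 * (1) + 347 + 1) 7 (4 + 1) :=
  state_of G (K := 10) (k := 2) (o := 347) (A := 16474) (J := 5) (w := 4) (v := 7) (St.root G)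
    (by norm_num) (by norm_num) (by decide +kernel) (by norm_num) (by decide +kernel)
    (by norm_num) (by decide +kernel) (by decide +kernel)
    (fun l h1 h2 => by interval_cases l <;> decide +kernel)

theorem tt_3_11 (G : Good a) : St a (2 ^ 8 * (2 ^ 9 * (1) + 55 + 1) + 179 + 1) 3 (10 + 1) :=
  state_of G (K := 8) (k := 3) (o := 179) (A := 35899) (J := 6) (w := 10) (v := 3) (tt_1_5 G)
    (by norm_num) (by norm_num) (by decide +kernel) (by norm_num) (by decide +kernel)
    (by norm_num) (by decide +kernel) (by decide +kernel)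
    (fun l h1 h2 => by interval_cases l <;> decide +kernel)

theorem tt_7_3 (G : Good a) : St a (2 ^ 12 * (1) + 419 + 1) 7 (2 + 1) :=
  state_of G (K := 12) (k := 2) (o := 419) (A := 44306) (J := 6) (w := 2) (v := 7) (St.root G)
    (by norm_num) (by norm_num) (by decide +kernel) (by norm_num) (by decide +kernel)
    (by norm_num) (by decide +kernel) (by decide +kernel)
    (fun l h1 h2 => by interval_cases l <;> decide +kernel)

theorem tt_11_3 (G : Good a) : St a (2 ^ 8 * (2 ^ 8 * (2 ^ 9 * (1) + 55 + 1) + 179 + 1) + 191 + 1) 11 (2 + 1) :=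
  state_of G (K := 8) (k := 3) (o := 191) (A := 81407) (J := 7) (w := 2) (v := 11) (tt_3_11 G)
    (by norm_num) (by norm_num) (by decide +kernel) (by norm_num) (by decide +kernel)
    (by norm_num) (by decide +kernel) (by decide +kernel)
    (fun l h1 h2 => by interval_cases l <;> decide +kernel)

theorem tt_13_3 (G : Good a) : St a (2 ^ 12 * (2 ^ 9 * (1) + 55 + 1) + 1607 + 1) 13 (2 + 1) :=
  state_of G (K := 12) (k := 1) (o := 1607) (A := 167539) (J := 7) (w := 2) (v := 13) (tt_1_5 G)
    (by norm_num) (by norm_num) (by decide +kernel) (by norm_num) (by decide +kernel)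
    (by norm_num) (by decide +kernel) (by decide +kernel)
    (fun l h1 h2 => by omega)

end Pool.Agent.SeqAdd
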