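import Pool.Agent.SeqAdd.C0

namespace Pool.Agent.SeqAdd

open Pool.Agent.SeqDil

variable {a : ℕ → ℕ}

theorem tt_9_5 (G : Good a) : St a (2 ^ 8 * (2 ^ 12 * (1) + 419 + 1) + 221 + 1) 9 (4 + 1) :=
  state_of G (K := 8) (k := 3) (o := 221) (A := 58011) (J := 7) (w := 4) (v := 9) (tt_7_3 G)
    (by norm_num) (by norm_num) (by decide +kernel) (by norm_num) (by decide +kernel)
    (by norm_num) (by decide +kernel) (by decide +kernel)
    (fun l h1 h2 => by interval_cases l <;> decide +kernel)

theorem tt_5_7 (G : Good a) : St a (2 ^ 9 * (2 ^ 8 * (2 ^ 12 * (1) + 419 + 1) + 221 + 1) + 205 + 1) 5 (6 + 1) :=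
  state_of G (K := 9) (k := 3) (o := 205) (A := 86800) (J := 7) (w := 6) (v := 5) (tt_9_5 G)
    (by norm_num) (by norm_num) (by decide +kernel) (by norm_num) (by decide +kernel)
    (by norm_num) (by decide +kernel) (by decide +kernel)
    (fun l h1 h2 => by interval_cases l <;> decide +kernel)

theorem tt_21_3 (G : Good a) : St a (2 ^ 12 * (2 ^ 12 * (2 ^ 9 * (1) + 55 + 1) + 1607 + 1) + 719 + 1) 21 (2 + 1) :=
  state_of G (K := 12) (k := 2) (o := 719) (A := 206648) (J := 8) (w := 2) (v := 21) (tt_13_3 G)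
    (by norm_num) (by norm_num) (by decide +kernel) (by norm_num) (by decide +kernel)
    (by norm_num) (by decide +kernel) (by decide +kernel)
    (fun l h1 h2 => by interval_cases l <;> decide +kernel)

end Pool.Agent.SeqAdd
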