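import Pool.Agent.SeqAdd.C1

namespace Pool.Agent.SeqAdd

open Pool.Agent.SeqDil

variable {a : ℕ → ℕ}

theorem tt_15_3 (G : Good a) : St a (2 ^ 12 * (2 ^ 10 * (1) + 347 + 1) + 575 + 1) 15 (2 + 1) :=
  state_of G (K := 12) (k := 4) (o := 575) (A := 1295350) (J := 9) (w := 2) (v := 15) (tt_7_5 G)
    (by norm_num) (by norm_num) (by decide +kernel) (by norm_num) (by decide +kernel)
    (by norm_num) (by decide +kernel) (by decide +kernel)
    (fun l h1 h2 => by interval_cases l <;> decide +kernel)

end Pool.Agent.SeqAdd
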