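import Pool.Agent.SeqAdd.C3

namespace Pool.Agent.SeqAdd

open Pool.Agent.SeqDil

variable {a : ℕ → ℕ}

theorem tt_23_3 (G : Good a) : St a (2 ^ 12 * (2 ^ 8 * (2 ^ 12 * (1) + 419 + 1) + 221 + 1) + 2423 + 1) 23 (2 + 1) :=
  state_of G (K := 12) (k := 2) (o := 2423) (A := 653326) (J := 8) (w := 2) (v := 23) (tt_9_5 G)
    (by norm_num) (by norm_num) (by decide +kernel) (by norm_num) (by decide +kernel)
    (by norm_num) (by decide +kernel) (by decide +kernel)
    (fun l h1 h2 => by interval_cases l <;> decide +kernel)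

end Pool.Agent.SeqAdd
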