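import Pool.Agent.SeqAdd.C4

namespace Pool.Agent.SeqAdd

open Pool.Agent.SeqDil

variable {a : ℕ → ℕ}

theorem tt_17_3 (G : Good a) : St a (2 ^ 16 * (2 ^ 12 * (2 ^ 9 * (1) + 55 + 1) + 1607 + 1) + 7103 + 1) 17 (2 + 1) :=
  state_of G (K := 16) (k := 1) (o := 7103) (A := 1912591) (J := 9) (w := 2) (v := 17) (tt_13_3 G)
    (by norm_num) (by norm_num) (by decide +kernel) (by norm_num) (by decide +kernel)
    (by norm_num) (by decide +kernel) (by decide +kernel)
    (fun l h1 h2 => by omega)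

end Pool.Agent.SeqAdd
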