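import Pool.Agent.SeqAdd.C5

namespace Pool.Agent.SeqAdd

open Pool.Agent.SeqDil

variable {a : ℕ → ℕ}

theorem tt_19_3 (G : Good a) : St a (2 ^ 16 * (2 ^ 9 * (2 ^ 8 * (2 ^ 12 * (1) + 419 + 1) + 221 + 1) + 205 + 1) + 18239 + 1) 19 (2 + 1) :=
  state_of G (K := 16) (k := 0) (o := 18239) (A := 2793342) (J := 9) (w := 2) (v := 19) (tt_5_7 G)
    (by norm_num) (by norm_num) (by decide +kernel) (by norm_num) (by decide +kernel)
    (by norm_num) (by decide +kernel) (by decide +kernel)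
    (fun l h1 h2 => by omega)

end Pool.Agent.SeqAdd
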