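import Pool.Agent.SeqAdd.C7

namespace Pool.Agent.SeqAdd

open Pool.Agent.SeqDil

variable {a : ℕ → ℕ}

theorem tt_27_9 (G : Good a) : St a (2 ^ 13 * (2 ^ 12 * (1) + 419 + 1) + 5455 + 1) 27 (8 + 1) :=
  state_of G (K := 13) (k := 3) (o := 5455) (A := 3483698) (J := 8) (w := 8) (v := 27) (tt_7_3 G)
    (by norm_num) (by norm_num) (by decide +kernel) (by norm_num) (by decide +kernel)
    (by norm_num) (by decide +kernel) (by decide +kernel)
    (fun l h1 h2 => by interval_cases l <;> decide +kernel)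

end Pool.Agent.SeqAdd
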