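import Pool.Agent.SeqDil.Basic

/-!
# Symbolic windows: linear forms in a large multiplier
-/

namespace Pool.Agent.SeqAdd

open Pool.Agent.SeqDil

variable {a : ℕ → ℕ}

/-- the value of the linear form `x.1 * M + x.2` -/
def ev (M : ℤ) (x : ℤ × ℤ) : ℤ := x.1 * M + x.2

/-- lexicographic comparison -/
def gtB (x v : ℤ × ℤ) : Bool :=
  decide (v.1 < x.1) || (decide (v.1 = x.1) && decide (v.2 < x.2))

def stz (x v : ℤ × ℤ) : ℤ × ℤ :=
  if gtB x v = true then (x.1 - v.1, x.2 - v.2) else (x.1 + v.1, x.2 + v.2)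

def nz : (ℤ × ℤ) → List (ℤ × ℤ) → List (ℤ × ℤ)
  | _, [] => []
  | x, v :: vs => v :: stz x v :: nz (stz x v) vs

/-- all comparisons made have constant terms at distance less than `B` -/
def okz (B : ℤ) : (ℤ × ℤ) → List (ℤ × ℤ) → Bool
  | _, [] => true
  | x, v :: vs => (decide (x.2 - v.2 < B) && decide (v.2 - x.2 < B)) && okz B (stz x v) vs

/-- symbolic window -/
def wz (u : ℤ) : ℕ → ℕ → List (ℤ × ℤ)
  | 0, n => List.take n [(0, u)]
  | t + 1, n => (nz ((mm (t + 1) : ℤ), 0) (wz u t ((n + 1) / 2))).take n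

def okw (B u : ℤ) : ℕ → ℕ → Bool
  | 0, _ => true
  | t + 1, n => okz B ((mm (t + 1) : ℤ), 0) (wz u t ((n + 1) / 2)) && okw B u t ((n + 1) / 2)

theorem stz_sound {M B : ℤ} (hM : 0 ≤ M) (hMB : B ≤ M) {X V : ℕ} {x v : ℤ × ℤ}
    (hX : (X : ℤ) = ev M x) (hV : (V : ℤ) = ev M v) (h1 : x.2 - v.2 < B) (h2 : v.2 - x.2 < B) :
    ((stp X V : ℕ) : ℤ) = ev M (stz x v) := by
  unfold ev at hX hV
  unfold stz
  split_ifs with hg
  · have hlt' : (V : ℤ) < X := by
      rw [hX, hV]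
      unfold gtB at hg
      simp only [Bool.or_eq_true, Bool.and_eq_true, decide_eq_true_eq] at hg
      rcases hg with h | ⟨h, h'⟩
      · have h3 := mul_le_mul_of_nonneg_right (show (1 : ℤ) ≤ x.1 - v.1 by omega) hM
        rw [sub_mul, one_mul] at h3
        linarith
      · rw [h]; linarith
    have hlt : V < X := by exact_mod_cast hlt'
    rw [stp_gt hlt, Nat.cast_sub hlt.le, hX, hV]
    unfold ev
    ring
  · have hle' : (X : ℤ) ≤ V := by
      rw [hX, hV]
      unfold gtB at hg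
      simp only [Bool.or_eq_true, Bool.and_eq_true, decide_eq_true_eq, not_or, not_and,
        not_lt] at hg
      obtain ⟨h, h'⟩ := hg
      rcases eq_or_lt_of_le h with h4 | h4
      · have := h' h4.symm
        rw [h4]; linarith
      · have h3 := mul_le_mul_of_nonneg_right (show (1 : ℤ) ≤ v.1 - x.1 by omega) hM
        rw [sub_mul, one_mul] at h3
        linarith
    have hle : X ≤ V := by exact_mod_cast hle'
    rw [stp_le hle, Nat.cast_add, hX, hV]
    unfold ev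
    ring

/-- `a` takes the values of the forms `L` at `M` from position `p` on -/
def RepZ (a : ℕ → ℕ) (M : ℤ) : ℕ → List (ℤ × ℤ) → Prop
  | _, [] => True
  | p, v :: vs => (a p : ℤ) = ev M v ∧ RepZ a M (p + 1) vs

theorem RepZ.take {M : ℤ} : ∀ (L : List (ℤ × ℤ)) (p n : ℕ), RepZ a M p L →
    RepZ a M p (L.take n)
  | [], _, n, _ => by cases n <;> simp [RepZ]
  | v :: vs, p, 0, _ => by simp [RepZ]
  | v :: vs, p, n + 1, h => by
    rw [List.take_succ_cons]
    exact ⟨h.1, RepZ.take vs (p + 1) n h.2⟩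

theorem RepZ.nz (G : Good a) {M B : ℤ} (hM : 0 ≤ M) (hMB : B ≤ M) :
    ∀ (L : List (ℤ × ℤ)) (p : ℕ) (x : ℤ × ℤ), 1 ≤ p → (a (2 * p - 1) : ℤ) = ev M x →
      RepZ a M p L → okz B x L = true → RepZ a M (2 * p) (nz x L)
  | [], _, _, _, _, _, _ => trivial
  | v :: vs, p, x, hp, hx, h, hok => by
    rw [okz, Bool.and_eq_true, Bool.and_eq_true] at hok
    obtain ⟨⟨hk1, hk2⟩, hk3⟩ := hok
    have ho := G.odd p hp
    have hs := stz_sound hM hMB hx h.1 (of_decide_eq_true hk1) (of_decide_eq_true hk2)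
    rw [← ho] at hs
    refine ⟨by rw [G.even p hp]; exact h.1, hs, ?_⟩
    have e : 2 * p + 1 + 1 = 2 * (p + 1) := by ring
    rw [e]
    refine RepZ.nz G hM hMB vs (p + 1) _ (by omega) ?_ h.2 hk3
    have e2 : 2 * (p + 1) - 1 = 2 * p + 1 := by omega
    rw [e2]; exact hs

theorem wz_rep (G : Good a) {D u m : ℕ} (hS : St a D u m) {B : ℤ} (hB : B ≤ m) :
    ∀ t n, okw B u t n = true → RepZ a m (2 ^ t * D) (wz u t n)
  | 0, n, _ => by
    show RepZ a m (2 ^ 0 * D) (List.take n [((0 : ℤ), (u : ℤ))])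
    refine RepZ.take _ _ _ ⟨?_, trivial⟩
    unfold ev
    simp [hS.2.1]
  | t + 1, n, hok => by
    rw [okw, Bool.and_eq_true] at hok
    show RepZ a m (2 ^ (t + 1) * D)
      ((Pool.Agent.SeqAdd.nz ((mm (t + 1) : ℤ), 0) (wz u t ((n + 1) / 2))).take n)
    refine RepZ.take _ _ _ ?_
    have e : 2 ^ (t + 1) * D = 2 * (2 ^ t * D) := by ring
    rw [e]
    refine RepZ.nz G (by positivity) hB _ _ _ (Nat.mul_pos (by positivity) hS.1) ?_
      (wz_rep G hS hB t _ hok.2) hok.1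
    rw [← e, hS.2.2 (t + 1) (by omega)]
    unfold ev
    push_cast
    ring

theorem RepZ.get {M : ℤ} : ∀ (L : List (ℤ × ℤ)) (p i : ℕ) (x : ℤ × ℤ), RepZ a M p L →
    L[i]? = some x → (a (p + i) : ℤ) = ev M x
  | [], _, _, _, _, h => by simp at h
  | v :: vs, p, 0, x, hr, h => by
    simp at h
    rw [← h]; exact hr.1
  | v :: vs, p, i + 1, x, hr, h => by
    have h' : vs[i]? = some x := by simpa using h
    have := RepZ.get vs (p + 1) i x hr.2 h'
    have e : p + (i + 1) = p + 1 + i := by omega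
    rw [e]; exact this

/-- shift of a state by two levels -/
theorem st_shift (G : Good a) {D u m : ℕ} (hS : St a D u m) :
    ∀ i, St a (4 ^ i * D) u (3 ^ i * m) := by
  intro i
  induction i with
  | zero => simpa using hS
  | succ i ih =>
    obtain ⟨h1, h2, h3⟩ := ih
    have e : 4 ^ (i + 1) * D = 2 * (2 * (4 ^ i * D)) := by ring
    refine ⟨by rw [e]; omega, ?_, fun k hk => ?_⟩
    · rw [e, G.even _ (by omega), G.even _ h1, h2]
    · have e2 : 2 ^ k * (4 ^ (i + 1) * D) = 2 ^ (k + 2) * (4 ^ i * D) := by ring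
      rw [e2, h3 (k + 2) (by omega), mm_add_two k hk]
      ring

/-- the family of values given by one place of the symbolic window -/
theorem value_of (G : Good a) {D u m : ℕ} (hS : St a D u m) {B : ℤ} {t n : ℕ} {x : ℤ × ℤ}
    (hok : okw B u t (n + 1) = true) (hx : (wz u t (n + 1))[n]? = some x) (i : ℕ)
    (hB : B ≤ ((3 ^ i * m : ℕ) : ℤ)) :
    ∃ q, 1 ≤ q ∧ (a q : ℤ) = ev ((3 ^ i * m : ℕ) : ℤ) x := by
  have hS' := st_shift G hS i
  have h := wz_rep G hS' hB t (n + 1) hok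
  refine ⟨2 ^ t * (4 ^ i * D) + n, ?_, RepZ.get _ _ _ _ h hx⟩
  have : 1 ≤ 2 ^ t * (4 ^ i * D) := Nat.mul_pos (by positivity) hS'.1
  omega

end Pool.Agent.SeqAdd
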