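import Pool.Agent.SeqAdd.C8
import Pool.Agent.SeqAdd.Sym

namespace Pool.Agent.SeqAdd

open Pool.Agent.SeqDil

variable {a : ℕ → ℕ}

theorem fam (G : Good a) {D u m : ℕ} (hS : St a D u m) {e c t n : ℕ} {x r d B : ℤ} {j0 j : ℕ}
    (hm : m = 3 ^ e) (hok : okw B u t (n + 1) = true)
    (hx : (wz u t (n + 1))[n]? = some (x, d)) (hr : x = r * 3 ^ c)
    (hj : j0 ≤ j) (he : e + c ≤ j0) (hB : B ≤ 3 ^ (j0 - c)) :
    ∃ q, 1 ≤ q ∧ (a q : ℤ) = r * 3 ^ j + d := by
  have e1 : 3 ^ (j - c - e) * m = 3 ^ (j - c) := by
    rw [hm, ← pow_add]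
    congr 1
    omega
  have hB' : B ≤ ((3 ^ (j - c - e) * m : ℕ) : ℤ) := by
    rw [e1]
    push_cast
    exact hB.trans (pow_le_pow_right₀ (by norm_num) (by omega))
  obtain ⟨q, hq, hv⟩ := value_of G hS hok hx (j - c - e) hB'
  refine ⟨q, hq, ?_⟩
  rw [hv, e1]
  unfold ev
  rw [hr]
  push_cast
  have e2 : (3 : ℤ) ^ j = 3 ^ c * 3 ^ (j - c) := by
    rw [← pow_add]
    congr 1
    omega
  rw [e2]
  ring

theorem near_two (G : Good a) (j : ℕ) (hj : 4 ≤ j) (d : ℤ) (h1 : -35 ≤ d) (h2 : d ≤ 29) (ho : Odd d) :
    ∃ q, 1 ≤ q ∧ (a q : ℤ) = 2 * 3 ^ j + d := by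
  interval_cases d
  ·
    exact fam G (tt_7_3 G) (e := 1) (c := 0) (t := 6) (n := 43) (x := 2) (r := 2) (d := -35) (B := 36) (j0 := 4)
      (by norm_num) (by decide +kernel) (by decide +kernel) (by norm_num) hj (by norm_num) (by norm_num)
  ·
    exact absurd ho (by decide)
  ·
    exact fam G (tt_11_3 G) (e := 1) (c := 0) (t := 6) (n := 31) (x := 2) (r := 2) (d := -33) (B := 34) (j0 := 4)
      (by norm_num) (by decide +kernel) (by decide +kernel) (by norm_num) hj (by norm_num) (by norm_num)
  ·
    exact absurd ho (by decide)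
  ·
    exact fam G (St.root G) (e := 0) (c := 0) (t := 8) (n := 133) (x := 2) (r := 2) (d := -31) (B := 38) (j0 := 4)
      (by norm_num) (by decide +kernel) (by decide +kernel) (by norm_num) hj (by norm_num) (by norm_num)
  ·
    exact absurd ho (by decide)
  ·
    exact fam G (tt_29_3 G) (e := 1) (c := 0) (t := 2) (n := 1) (x := 2) (r := 2) (d := -29) (B := 30) (j0 := 4)
      (by norm_num) (by decide +kernel) (by decide +kernel) (by norm_num) hj (by norm_num) (by norm_num)
  ·
    exact absurd ho (by decide)
  ·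
    exact fam G (tt_27_9 G) (e := 2) (c := 0) (t := 2) (n := 1) (x := 2) (r := 2) (d := -27) (B := 28) (j0 := 4)
      (by norm_num) (by decide +kernel) (by decide +kernel) (by norm_num) hj (by norm_num) (by norm_num)
  ·
    exact absurd ho (by decide)
  ·
    exact fam G (tt_25_3 G) (e := 1) (c := 0) (t := 2) (n := 1) (x := 2) (r := 2) (d := -25) (B := 26) (j0 := 4)
      (by norm_num) (by decide +kernel) (by decide +kernel) (by norm_num) hj (by norm_num) (by norm_num)
  ·
    exact absurd ho (by decide)
  ·
    exact fam G (tt_23_3 G) (e := 1) (c := 0) (t := 2) (n := 1) (x := 2) (r := 2) (d := -23) (B := 24) (j0 := 4)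
      (by norm_num) (by decide +kernel) (by decide +kernel) (by norm_num) hj (by norm_num) (by norm_num)
  ·
    exact absurd ho (by decide)
  ·
    exact fam G (tt_21_3 G) (e := 1) (c := 0) (t := 2) (n := 1) (x := 2) (r := 2) (d := -21) (B := 22) (j0 := 4)
      (by norm_num) (by decide +kernel) (by decide +kernel) (by norm_num) hj (by norm_num) (by norm_num)
  ·
    exact absurd ho (by decide)
  ·
    exact fam G (tt_19_3 G) (e := 1) (c := 0) (t := 2) (n := 1) (x := 2) (r := 2) (d := -19) (B := 20) (j0 := 4)
      (by norm_num) (by decide +kernel) (by decide +kernel) (by norm_num) hj (by norm_num) (by norm_num)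
  ·
    exact absurd ho (by decide)
  ·
    exact fam G (tt_17_3 G) (e := 1) (c := 0) (t := 2) (n := 1) (x := 2) (r := 2) (d := -17) (B := 18) (j0 := 4)
      (by norm_num) (by decide +kernel) (by decide +kernel) (by norm_num) hj (by norm_num) (by norm_num)
  ·
    exact absurd ho (by decide)
  ·
    exact fam G (tt_15_3 G) (e := 1) (c := 0) (t := 2) (n := 1) (x := 2) (r := 2) (d := -15) (B := 16) (j0 := 4)
      (by norm_num) (by decide +kernel) (by decide +kernel) (by norm_num) hj (by norm_num) (by norm_num)
  ·
    exact absurd ho (by decide)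
  ·
    exact fam G (tt_13_3 G) (e := 1) (c := 0) (t := 2) (n := 1) (x := 2) (r := 2) (d := -13) (B := 14) (j0 := 4)
      (by norm_num) (by decide +kernel) (by decide +kernel) (by norm_num) hj (by norm_num) (by norm_num)
  ·
    exact absurd ho (by decide)
  ·
    exact fam G (tt_11_3 G) (e := 1) (c := 0) (t := 2) (n := 1) (x := 2) (r := 2) (d := -11) (B := 12) (j0 := 4)
      (by norm_num) (by decide +kernel) (by decide +kernel) (by norm_num) hj (by norm_num) (by norm_num)
  ·
    exact absurd ho (by decide)
  ·
    exact fam G (tt_9_3 G) (e := 1) (c := 0) (t := 2) (n := 1) (x := 2) (r := 2) (d := -9) (B := 10) (j0 := 4)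
      (by norm_num) (by decide +kernel) (by decide +kernel) (by norm_num) hj (by norm_num) (by norm_num)
  ·
    exact absurd ho (by decide)
  ·
    exact fam G (tt_7_3 G) (e := 1) (c := 0) (t := 2) (n := 1) (x := 2) (r := 2) (d := -7) (B := 8) (j0 := 4)
      (by norm_num) (by decide +kernel) (by decide +kernel) (by norm_num) hj (by norm_num) (by norm_num)
  ·
    exact absurd ho (by decide)
  ·
    exact fam G (tt_5_3 G) (e := 1) (c := 0) (t := 2) (n := 1) (x := 2) (r := 2) (d := -5) (B := 6) (j0 := 4)
      (by norm_num) (by decide +kernel) (by decide +kernel) (by norm_num) hj (by norm_num) (by norm_num)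
  ·
    exact absurd ho (by decide)
  ·
    exact fam G (tt_3_3 G) (e := 1) (c := 0) (t := 2) (n := 1) (x := 2) (r := 2) (d := -3) (B := 4) (j0 := 4)
      (by norm_num) (by decide +kernel) (by decide +kernel) (by norm_num) hj (by norm_num) (by norm_num)
  ·
    exact absurd ho (by decide)
  ·
    exact fam G (St.root G) (e := 0) (c := 0) (t := 2) (n := 1) (x := 2) (r := 2) (d := -1) (B := 2) (j0 := 4)
      (by norm_num) (by decide +kernel) (by decide +kernel) (by norm_num) hj (by norm_num) (by norm_num)
  ·
    exact absurd ho (by decide)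
  ·
    exact fam G (St.root G) (e := 0) (c := 0) (t := 6) (n := 19) (x := 2) (r := 2) (d := 1) (B := 4) (j0 := 4)
      (by norm_num) (by decide +kernel) (by decide +kernel) (by norm_num) hj (by norm_num) (by norm_num)
  ·
    exact absurd ho (by decide)
  ·
    exact fam G (St.root G) (e := 0) (c := 0) (t := 7) (n := 53) (x := 2) (r := 2) (d := 3) (B := 7) (j0 := 4)
      (by norm_num) (by decide +kernel) (by decide +kernel) (by norm_num) hj (by norm_num) (by norm_num)
  ·
    exact absurd ho (by decide)
  ·
    exact fam G (St.root G) (e := 0) (c := 0) (t := 7) (n := 41) (x := 2) (r := 2) (d := 5) (B := 6) (j0 := 4)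
      (by norm_num) (by decide +kernel) (by decide +kernel) (by norm_num) hj (by norm_num) (by norm_num)
  ·
    exact absurd ho (by decide)
  ·
    exact fam G (tt_7_3 G) (e := 1) (c := 0) (t := 6) (n := 19) (x := 2) (r := 2) (d := 7) (B := 22) (j0 := 4)
      (by norm_num) (by decide +kernel) (by decide +kernel) (by norm_num) hj (by norm_num) (by norm_num)
  ·
    exact absurd ho (by decide)
  ·
    exact fam G (tt_3_3 G) (e := 1) (c := 0) (t := 7) (n := 53) (x := 2) (r := 2) (d := 9) (B := 19) (j0 := 4)
      (by norm_num) (by decide +kernel) (by decide +kernel) (by norm_num) hj (by norm_num) (by norm_num)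
  ·
    exact absurd ho (by decide)
  ·
    exact fam G (St.root G) (e := 0) (c := 0) (t := 7) (n := 101) (x := 2) (r := 2) (d := 11) (B := 23) (j0 := 4)
      (by norm_num) (by decide +kernel) (by decide +kernel) (by norm_num) hj (by norm_num) (by norm_num)
  ·
    exact absurd ho (by decide)
  ·
    exact fam G (tt_13_3 G) (e := 1) (c := 0) (t := 6) (n := 19) (x := 2) (r := 2) (d := 13) (B := 40) (j0 := 4)
      (by norm_num) (by decide +kernel) (by decide +kernel) (by norm_num) hj (by norm_num) (by norm_num)
  ·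
    exact absurd ho (by decide)
  ·
    exact fam G (tt_3_3 G) (e := 1) (c := 0) (t := 7) (n := 41) (x := 2) (r := 2) (d := 15) (B := 16) (j0 := 4)
      (by norm_num) (by decide +kernel) (by decide +kernel) (by norm_num) hj (by norm_num) (by norm_num)
  ·
    exact absurd ho (by decide)
  ·
    exact fam G (tt_17_3 G) (e := 1) (c := 0) (t := 6) (n := 19) (x := 2) (r := 2) (d := 17) (B := 52) (j0 := 4)
      (by norm_num) (by decide +kernel) (by decide +kernel) (by norm_num) hj (by norm_num) (by norm_num)
  ·
    exact absurd ho (by decide)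
  ·
    exact fam G (tt_19_3 G) (e := 1) (c := 0) (t := 6) (n := 19) (x := 2) (r := 2) (d := 19) (B := 58) (j0 := 4)
      (by norm_num) (by decide +kernel) (by decide +kernel) (by norm_num) hj (by norm_num) (by norm_num)
  ·
    exact absurd ho (by decide)
  ·
    exact fam G (St.root G) (e := 0) (c := 0) (t := 9) (n := 149) (x := 2) (r := 2) (d := 21) (B := 33) (j0 := 4)
      (by norm_num) (by decide +kernel) (by decide +kernel) (by norm_num) hj (by norm_num) (by norm_num)
  ·
    exact absurd ho (by decide)
  ·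
    exact fam G (St.root G) (e := 0) (c := 0) (t := 9) (n := 137) (x := 2) (r := 2) (d := 23) (B := 32) (j0 := 4)
      (by norm_num) (by decide +kernel) (by decide +kernel) (by norm_num) hj (by norm_num) (by norm_num)
  ·
    exact absurd ho (by decide)
  ·
    exact fam G (tt_5_3 G) (e := 1) (c := 0) (t := 7) (n := 41) (x := 2) (r := 2) (d := 25) (B := 26) (j0 := 4)
      (by norm_num) (by decide +kernel) (by decide +kernel) (by norm_num) hj (by norm_num) (by norm_num)
  ·
    exact absurd ho (by decide)
  ·
    exact fam G (tt_9_3 G) (e := 1) (c := 0) (t := 7) (n := 53) (x := 2) (r := 2) (d := 27) (B := 55) (j0 := 4)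
      (by norm_num) (by decide +kernel) (by decide +kernel) (by norm_num) hj (by norm_num) (by norm_num)
  ·
    exact absurd ho (by decide)
  ·
    exact fam G (St.root G) (e := 0) (c := 0) (t := 9) (n := 185) (x := 2) (r := 2) (d := 29) (B := 47) (j0 := 4)
      (by norm_num) (by decide +kernel) (by decide +kernel) (by norm_num) hj (by norm_num) (by norm_num)

end Pool.Agent.SeqAdd
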